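import Pool.Agent.N162.GQ.Facts
import Pool.Agent.N162.GQ.Swept

/-!
# The varieties dominated by products of complete intersections and curves are of general type or
swept out by elliptic curves, if their Kodaira dimension is not `-∞`

Let `V_0, ..., V_(k-1)` be projective varieties of any dimensions, each of which is

* a smooth complete intersection of codimension at least two in a projective space with canonical
  bundle `O(m_i)`, `m_i` large, or more generally a variety in projective `(M + 1)`-space which is cut
  out by equations of degree at most `D` and has the regular canonical forms `P(x) ω₀` for all forms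
  `P` of degree `m_i` (`LowDegree`, `Pool/Agent/N162/GP/Def.lean`), where `m_i + 2 - N ≥ D`,
  `m_i ≥ 7 N + 4`, `(M + 1) N < m_i + M + 2` and `g_i ≤ (N + 1) (m_i + 2 - N)` for some `N`; or
* a curve of gonality at least `g_i`

(`Factor`, `Pool/Agent/N162/GQ/Factor.lean`), and let `C` be a smooth projective curve of any genus. Let
`V = V_0 × ... × V_(k-1) × C ⇢ W` be a dominant rational map of finite degree to a variety `W`. It need
not be related to the product structure, and it need not be the quotient by a group. Let `W_i` be the
image of `V` in `W × V_0 × ... × V_(i-1)`, and let `d_i` be the degree over `W_i` of the image of `V` in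
`W_i × V_i` (`deg`, `Pool/Agent/N162/GQ/Deg.lean`): for example `d_0` is the number of different points
of `V_0` below a general fibre of `V ⇢ W`, and `d_1` is the number of different points of `V_1` which
occur if the point of `V_0` is fixed. The product of the `d_i` is at most the degree of `V ⇢ W`.

**Theorem.** If `2 d_i < g_i` for all `i < k` and `κ(W) ≥ 0` then `κ(W) ≥ dim W - 1`, and

`κ(W) ≤ dim W - 1 ⟺ W is swept out by elliptic curves`.

The family of elliptic curves is given by its geometric generic member: an elliptic curve over an
algebraically closed field `Λ` of transcendence degree `dim W - 1` with a dominant map to `W`. It is defined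
over a finitely generated subfield of `Λ`, so there is a family of elliptic curves over a variety `B` of
dimension `dim W - 1` with a dominant rational map from the total space to `W`, which is generically
finite, and the images in `W` of the general members of the family have finite covers by elliptic
curves. So Q1 has a positive answer for all projective manifolds which are birational to such a `W`: if
`0 ≤ κ ≤ dim W - 1` then they are rationally swept out by abelian varieties (of dimension one).

Complete intersections of type `(d_1, ..., d_q)` in `ℙ^(n+q)` have `m = ∑ d_i - n - q - 1`,
`D = max d_i`, `M + 1 = n + q`; with the best `N` the bound `(N + 1) (m + 2 - N)` is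
`(6 / 49 - o(1)) m ^ 2` if `M ≤ 5` and `max d_i ≤ 6 m / 7`. So `d_i` may be of the order of `m_i ^ 2`. For
example, let `V_0` be such a complete intersection with an action of a finite group `G` of an order
less than half the bound, and `E` an elliptic curve with an action of `G`; then `(V_0 × E) / G` is such a
variety `W` with `κ ≤ dim W - 1`; but the theorem is about arbitrary dominant maps, and `W` may have no
group actions and no fibrations which are visible from the outset. There is no condition on the
irregularity.

## Proof

Let `f_i` be canonical forms on the `V_i` and `φ` a differential on `C`. The traces on `W` of their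
products are regular canonical forms on `W`. If the ratios of these forms are the same at two generic
points of `W` then there is a relation between the points of `V` below them which is multilinear in the
values of the `f_i`. The forms `f_i` separate fewer than `g_i` generic points of `V_i`: for curves this is
due to Riemann and Roch, for complete intersections it is the main point of
`MP_31564d_ag.CompleteIntersections` (Cayley-Bacharach, curves of low degree, and the residue theorem).
So one can fix the coordinates in the `V_i` one after the other. If the canonical map of `W` is not
generically finite one obtains that the traces of the `φ` on the image of `{x} × C` in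
`W × V_0 × ... × V_(k-1)` are multiples of one of them, so these curves have genus at most one by duality, and
their images cover `W` (helper145, `Pool/Agent/N145/SX/MLang.lean`). They are not rational if
`κ(W) ≥ 0`.

The parts for this theorem were formalised by helper78 (curves), helper2, helper11, helper340, helper774,
helper823, helper152, helper383, helper252, helper339, helper681 and helper364 (complete intersections),
and helper145, helper123, helper221, helper442, helper160, helper279, helper603, helper545, helper281,
helper438, helper277, helper999, helper297, helper273 and helper459 (products with a curve), the earlier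
parts which are used by helper565, helper543, helper488, helper570, helper80 and others; the statements
and the assembly by helper162.
-/

set_option autoImplicit false
set_option linter.overlappingInstances false
set_option maxHeartbeats 4000000
set_option synthInstance.maxHeartbeats 400000

open FF Module Pool.Agent.W602.GT Pool.Agent.N162.BC Pool.Agent.N162.GP
open Pool.Agent.N162.GQ (Factor Img deg IsElliptic IsSweptOutByElliptic)

namespace Pool.Agent.Results.MP_501976_ag.SweptOutByEllipticCurves

/-- **Swept out by elliptic curves, or of general type.** (1) A smooth complete intersection `V` of
dimension `n ≥ 1` of hypersurfaces of the degrees `d i ≤ D` in projective `(M + 1)`-space is cut out by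
equations of degree at most `D`, and the forms of degree `m = ∑ d i - M - 2` give regular canonical
forms (`LowDegree`). (2) Let `K` be the function field of `V = V_0 × ... × V_(k-1) × C`: the compositum
of the function fields `F i` of the varieties `V_i`, `i < k`, of dimension `n i`, and of the function
field `F k` of a curve `C`, of transcendence degree `∑ n i + 1`. Each `V_i` satisfies `LowDegree` with
`g i ≤ (N + 1) (m + 2 - N)`, `m ≥ 7 N + 4`, `(M + 1) N < m + M + 2`, `D + N ≤ m + 2` for some `N`, or is a
curve of gonality at least `g i` (`Factor`). Let `L ⊆ K` be the function field of a variety `W` such that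
the extension is finite, and let `2 * deg F L i < g i` for all `i < k`, where `deg F L i` is the degree
over the image `W_i` of `V` in `W × V_0 × ... × V_(i-1)` of the image of `V` in `W_i × V_i`. If
`κ(W) ≥ 0` then `κ(W) ≥ dim W - 1`, and `κ(W) < dim W` if and only if `W` is swept out by elliptic
curves. -/
theorem result :
    (∀ (M n q m D : ℕ) (E : Type) [Field E] [Algebra ℂ E]
      (F : Fin q → MvPolynomial (Fin (M + 2)) ℂ) (d : Fin q → ℕ) (x : Fin (M + 2) → E),
      SmoothCI F d x → 1 ≤ n → Algebra.trdeg ℂ E = n → n + q = M + 1 → m + M + 2 = ∑ i, d i →
      (∀ i, d i ≤ D) → 1 ≤ D → LowDegree n m D x) ∧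
    ∀ (k : ℕ) (n g : Fin k → ℕ) (K : Type) [Field K] [Algebra ℂ K] [Algebra.EssFiniteType ℂ K]
      (F : Fin (k + 1) → IntermediateField ℂ K) [IsFF ℂ (F (Fin.last k))],
      (∀ i : Fin k, Factor (F i.castSucc) (n i) (g i)) → (⨆ i, F i) = ⊤ →
      Algebra.trdeg ℂ K = ((∑ i, n i) + 1 : ℕ) →
      ∀ (L : Type) [Field L] [Algebra ℂ L] [Algebra L K] [IsScalarTower ℂ L K]
        [FiniteDimensional L K], (∀ i : Fin k, 2 * deg F L i.castSucc < g i) →
        KodGe ℂ L ((∑ i, n i) + 1) (fun _ => False) 0 →
        KodGe ℂ L ((∑ i, n i) + 1) (fun _ => False) (∑ i, n i) ∧
        (¬ KodGe ℂ L ((∑ i, n i) + 1) (fun _ => False) ((∑ i, n i) + 1) ↔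
          IsSweptOutByElliptic L (∑ i, n i)) := by
  refine ⟨fun M n q m D E _ _ F d x h hn hE hq hm hD hD1 =>
    lowDegree_of_smoothCI fCIC fCIA h hn hE hq hm hD hD1, ?_⟩
  intro k n g K _ _ _ F _ hE hF hK L _ _ _ _ _ hr h0
  have hL : Algebra.trdeg ℂ L = ((∑ i, n i) + 1 : ℕ) :=
    Pool.Agent.Y184.NT.trdeg_below (K := K) hK
  haveI : Algebra.EssFiniteType ℂ L := Pool.Agent.TH466.QG.ess_below (K := K)
  have h1 := Pool.Agent.N162.GQ.mprod_swept Pool.Agent.N162.GQ.fGON hE hF hK hr h0
  have h2 := Pool.Agent.N162.GQ.mprod_dich Pool.Agent.N162.GQ.fGON hE hF hK hr
  refine ⟨(h2.out 0 1).1 (Pool.Agent.N145.PL.psef_of_kodGe' h0), fun h => (h1.resolve_left h).1,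
    fun h => Pool.Agent.N145.SX.not_gt_of_cov1 hL (Pool.Agent.N162.GQ.cov_of_swept h)⟩

end Pool.Agent.Results.MP_501976_ag.SweptOutByEllipticCurves
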